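import Pool.Agent.Run7.h528.PP.Wreath

/-!
# Relative presentations with relations between conjugates of the new generators
-/

set_option autoImplicit false

namespace Run7.h872.SG

open Pool.Agent.Y110.FJ
open Pool.Agent.Y462.SS (Closed)
open Run7.h528.PP

variable {A I : Type} [Group A]

/-- an elementary identification -/
def Step (cj : A → I → I → Prop) (x y : A × I) : Prop :=
  ∃ a u i j, cj u i j ∧ x = (a * u, i) ∧ y = (a, j)

/-- the set of the conjugates of the new generators -/
def Cg (cj : A → I → I → Prop) : Type := Quot (Step cj)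

variable {cj : A → I → I → Prop}

/-- the conjugate of the generator `i` with `a` -/
def Cg.mk (cj : A → I → I → Prop) (a : A) (i : I) : Cg cj := Quot.mk _ (a, i)

theorem Cg.rel {u : A} {i j : I} (h : cj u i j) (a : A) : Cg.mk cj (a * u) i = Cg.mk cj a j :=
  Quot.sound ⟨a, u, i, j, h, rfl, rfl⟩

theorem Cg.ex (x : Cg cj) : ∃ a i, x = Cg.mk cj a i := by
  induction x using Quot.ind with
  | mk p => exact ⟨p.1, p.2, rfl⟩

instance : MulAction A (Cg cj) where
  smul a := Quot.map (fun x => (a * x.1, x.2)) (by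
    rintro _ _ ⟨b, u, i, j, h, rfl, rfl⟩
    exact ⟨a * b, u, i, j, h, by rw [mul_assoc], rfl⟩)
  one_smul x := by
    induction x using Quot.ind with
    | mk p => exact congrArg (Quot.mk _) (by simp)
  mul_smul a b x := by
    induction x using Quot.ind with
    | mk p => exact congrArg (Quot.mk _) (by simp [mul_assoc])

theorem Cg.smul (a b : A) (i : I) : a • Cg.mk cj b i = Cg.mk cj (a * b) i := rfl

/-- the graph of the commutation relations -/
def gr (cj : A → I → I → Prop) (cm : A → I → A → I → Prop) : SimpleGraph (Cg cj) where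
  Adj x y := x ≠ y ∧ ∃ a u i v j, (cm u i v j ∨ cm v j u i) ∧ x = Cg.mk cj (a * u) i ∧
    y = Cg.mk cj (a * v) j
  symm := ⟨by
    rintro x y ⟨hne, a, u, i, v, j, h, hx, hy⟩
    exact ⟨hne.symm, a, v, j, u, i, h.symm, hy, hx⟩⟩
  loopless := ⟨fun x h => h.1 rfl⟩

variable {cm : A → I → A → I → Prop}

theorem gr_smul (a : A) (x y : Cg cj) (h : (gr cj cm).Adj x y) :
    (gr cj cm).Adj (a • x) (a • y) := by
  obtain ⟨hne, b, u, i, v, j, h, rfl, rfl⟩ := h
  refine ⟨fun h' => hne (MulAction.injective a h'), a * b, u, i, v, j, h, ?_, ?_⟩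
  · rw [Cg.smul, mul_assoc]
  · rw [Cg.smul, mul_assoc]

theorem gr_smul_iff (a : A) (x y : Cg cj) :
    (gr cj cm).Adj (a • x) (a • y) ↔ (gr cj cm).Adj x y := by
  refine ⟨fun h => ?_, gr_smul a x y⟩
  have := gr_smul a⁻¹ _ _ h
  rwa [inv_smul_smul, inv_smul_smul] at this

/-- the relations are satisfied -/
structure Sat (cj : A → I → I → Prop) (cm : A → I → A → I → Prop) {K : Type} [Group K] {X : Type}
    [Group X] (s : A →* X) (t : I → K →* X) : Prop where
  conj : ∀ u i j, cj u i j → ∀ k, s u * t i k * (s u)⁻¹ = t j k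
  comm : ∀ u i v j, cm u i v j → ∀ k l,
    (s u * t i k * (s u)⁻¹) * (s v * t j l * (s v)⁻¹) =
      (s v * t j l * (s v)⁻¹) * (s u * t i k * (s u)⁻¹)

section wr

variable {K : Type} [Group K]

theorem hp (cj : A → I → I → Prop) (cm : A → I → A → I → Prop) (a : A) (x y : Cg cj) :
    (gr cj cm).Adj (MulAction.toPerm a x) (MulAction.toPerm a y) ↔ (gr cj cm).Adj x y :=
  gr_smul_iff a x y

/-- the action on the graph product -/
noncomputable def act (cj : A → I → I → Prop) (cm : A → I → A → I → Prop) (K : Type) [Group K] :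
    A →* MulAut (GPE (gr cj cm) K ⊥) where
  toFun a := gmap (gr cj cm) ⊥ (MulAction.toPerm a) (hp cj cm a)
  map_one' := by
    apply MulEquiv.toMonoidHom_injective
    refine gext fun v a => ?_
    show gmap (gr cj cm) ⊥ (MulAction.toPerm 1) (hp cj cm 1) (GPP.of (gr cj cm) (fun _ => K) (fun _ => ⊥) v a) = _
    rw [gmap_of, MulAction.toPerm_apply, one_smul]
    rfl
  map_mul' b c := by
    apply MulEquiv.toMonoidHom_injective
    refine gext fun v a => ?_
    show gmap (gr cj cm) ⊥ (MulAction.toPerm (b * c)) (hp cj cm (b * c))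
      (GPP.of (gr cj cm) (fun _ => K) (fun _ => ⊥) v a) =
      gmap (gr cj cm) ⊥ (MulAction.toPerm b) (hp cj cm b) (gmap (gr cj cm) ⊥ (MulAction.toPerm c) (hp cj cm c)
      (GPP.of (gr cj cm) (fun _ => K) (fun _ => ⊥) v a))
    rw [gmap_of, gmap_of, gmap_of, MulAction.toPerm_apply, MulAction.toPerm_apply,
      MulAction.toPerm_apply, mul_smul]

theorem act_of (a : A) (x : Cg cj) (k : K) :
    act cj cm K a (GPE.of (gr cj cm) K ⊥ x k) = GPE.of (gr cj cm) K ⊥ (a • x) k :=
  gmap_of (K := ⊥) _ _ x k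

/-- the graph-wreath product -/
abbrev Wr (cj : A → I → I → Prop) (cm : A → I → A → I → Prop) (K : Type) [Group K] : Type :=
  GPE (gr cj cm) K ⊥ ⋊[act cj cm K] A

theorem perm : Permutes (gr cj cm) (⊥ : Subgroup K) (act cj cm K) :=
  ⟨fun q v w h => gr_smul q v w h, fun q v a => act_of q v a⟩

/-- the new vertex groups in the graph-wreath product -/
noncomputable def t0 (cj : A → I → I → Prop) (cm : A → I → A → I → Prop) (K : Type) [Group K]
    (i : I) : K →* Wr cj cm K :=
  (SemidirectProduct.inl).comp (GPE.of (gr cj cm) K ⊥ (Cg.mk cj 1 i))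

theorem conj_t0 (u : A) (i : I) (k : K) :
    (SemidirectProduct.inr u : Wr cj cm K) * t0 cj cm K i k * (SemidirectProduct.inr u)⁻¹ =
      SemidirectProduct.inl (GPE.of (gr cj cm) K ⊥ (Cg.mk cj u i) k) := by
  rw [t0, MonoidHom.comp_apply, ← map_inv, ← SemidirectProduct.inl_aut, act_of, Cg.smul, mul_one]

theorem sat0 (hK : (∀ k l : K, k * l = l * k) ∨
      ∀ u i v j, cm u i v j → Cg.mk cj u i ≠ Cg.mk cj v j) :
    Sat cj cm (SemidirectProduct.inr : A →* Wr cj cm K) (t0 cj cm K) where
  conj u i j h k := by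
    rw [conj_t0, t0, MonoidHom.comp_apply]
    have := Cg.rel h 1
    rw [one_mul] at this
    rw [this]
  comm u i v j h k l := by
    rw [conj_t0, conj_t0, ← map_mul, ← map_mul]
    congr 1
    by_cases hne : Cg.mk cj u i = Cg.mk cj v j
    · rcases hK with hK | hK
      · rw [hne, ← map_mul, ← map_mul, hK]
      · exact absurd hne (hK u i v j h)
    · exact gcomm (Λ := gr cj cm) (A := fun _ => K) (H := fun _ => ⊥) hne k l
        (Or.inl ⟨hne, 1, u, i, v, j, Or.inl h, by rw [one_mul], by rw [one_mul]⟩)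

variable {G : Type} [Group G] {s : A →* G} {t : I → K →* G}

/-- the image of a vertex group -/
def vx (hs : Sat cj cm s t) (x : Cg cj) : K →* G :=
  Quot.lift (fun p : A × I => (MulAut.conj (s p.1)).toMonoidHom.comp (t p.2)) (by
    rintro _ _ ⟨a, u, i, j, h, rfl, rfl⟩
    ext k
    show s (a * u) * t i k * (s (a * u))⁻¹ = s a * t j k * (s a)⁻¹
    rw [← hs.conj u i j h k, map_mul]
    group) x

theorem vx_mk (hs : Sat cj cm s t) (a : A) (i : I) (k : K) :
    vx hs (Cg.mk cj a i) k = s a * t i k * (s a)⁻¹ := rfl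

/-- the homomorphism of the graph product -/
noncomputable def lf (hs : Sat cj cm s t) : GPE (gr cj cm) K ⊥ →* G :=
  glift (fun x => vx hs x) (by
    rintro x y hne a b (h | h)
    · obtain ⟨-, c, u, i, v, j, h, rfl, rfl⟩ := h
      have h1 : (s u * t i a * (s u)⁻¹) * (s v * t j b * (s v)⁻¹) =
          (s v * t j b * (s v)⁻¹) * (s u * t i a * (s u)⁻¹) := by
        rcases h with h | h
        · exact hs.comm u i v j h a b
        · exact (hs.comm v j u i h b a).symm
      rw [vx_mk, vx_mk, map_mul, map_mul]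
      calc s c * s u * t i a * (s c * s u)⁻¹ * (s c * s v * t j b * (s c * s v)⁻¹)
          = s c * ((s u * t i a * (s u)⁻¹) * (s v * t j b * (s v)⁻¹)) * (s c)⁻¹ := by group
        _ = _ := by rw [h1]; group
    · rw [Subgroup.mem_bot] at h
      rw [h, map_one, mul_one, one_mul])

theorem lf_of (hs : Sat cj cm s t) (x : Cg cj) (k : K) :
    lf hs (GPE.of (gr cj cm) K ⊥ x k) = vx hs x k :=
  glift_of (Λ := gr cj cm) (A := fun _ => K) (H := fun _ => ⊥) _ _ x k

/-- the homomorphism of the graph-wreath product -/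
noncomputable def lw (hs : Sat cj cm s t) : Wr cj cm K →* G :=
  SemidirectProduct.lift (lf hs) s (by
    intro g
    refine gext fun x k => ?_
    show lf hs (act cj cm K g (GPE.of (gr cj cm) K ⊥ x k)) =
      s g * lf hs (GPE.of (gr cj cm) K ⊥ x k) * (s g)⁻¹
    rw [act_of, lf_of, lf_of]
    obtain ⟨a, i, rfl⟩ := x.ex
    rw [Cg.smul, vx_mk, vx_mk, map_mul]
    group)

theorem lw_inr (hs : Sat cj cm s t) (a : A) : lw hs (SemidirectProduct.inr a) = s a :=
  SemidirectProduct.lift_inr _ _ _ _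

theorem lw_t0 (hs : Sat cj cm s t) (i : I) (k : K) : lw hs (t0 cj cm K i k) = t i k := by
  rw [t0, MonoidHom.comp_apply, lw, SemidirectProduct.lift_inl, lf_of, vx_mk, map_one]
  group

/-- **relative presentations** -/
theorem pres {C : ∀ (G : Type) [Group G], Prop} (hC : ClosedE C) [Nonempty I]
    (hK : (∀ k l : K, k * l = l * k) ∨
      ∀ u i v j, cm u i v j → Cg.mk cj u i ≠ Cg.mk cj v j)
    (hs : Sat cj cm s t)
    (huniv : ∀ (X : Type) [Group X] (s' : A →* X) (t' : I → K →* X), Sat cj cm s' t' →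
      ∃ f : G →* X, (∀ a, f (s a) = s' a) ∧ ∀ i k, f (t i k) = t' i k)
    (hgen : ∀ f : G →* G, (∀ a, f (s a) = s a) → (∀ i k, f (t i k) = t i k) → ∀ x, f x = x) :
    C G ↔ C A ∧ C K := by
  obtain ⟨i₀⟩ := ‹Nonempty I›
  have : Nonempty (Cg cj) := ⟨Cg.mk cj 1 i₀⟩
  have hW : C (Wr cj cm K) ↔ C K ∧ C A := gpe hC (Cg cj) A K (gr cj cm) ⊥ (act cj cm K) perm
  obtain ⟨f, hfs, hft⟩ := huniv (Wr cj cm K) SemidirectProduct.inr (t0 cj cm K) (sat0 hK)
  have hfinj : Function.Injective f := by
    intro x y hxy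
    have h1 := hgen ((lw hs).comp f) (fun a => by rw [MonoidHom.comp_apply, hfs, lw_inr])
      (fun i k => by rw [MonoidHom.comp_apply, hft, lw_t0])
    rw [← h1 x, ← h1 y, MonoidHom.comp_apply, MonoidHom.comp_apply, hxy]
  constructor
  · intro h
    constructor
    · refine hC.base.of_injective _ _ s ?_ h
      intro x y hxy
      have h1 := congrArg f hxy
      rw [hfs, hfs] at h1
      exact SemidirectProduct.inr_injective h1
    · refine hC.base.of_injective _ _ (t i₀) ?_ h
      intro x y hxy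
      have h1 := congrArg f hxy
      rw [hft, hft] at h1
      exact of_injective (Λ := gr cj cm) (A := fun _ => K) (H := fun _ => ⊥) (Cg.mk cj 1 i₀)
        (SemidirectProduct.inl_injective h1)
  · intro h
    exact hC.base.of_injective _ _ f hfinj (hW.2 h.symm)

end wr

end Run7.h872.SG
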