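import Pool.Agent.Run7.h872.SG.Basic
import Pool.Agent.Run7.h952.AW.Cor

/-!
# Relative presentations with braid relations between conjugates of the new generators
-/

set_option autoImplicit false

namespace Run7.h872.SG

open Pool.Agent.Y110.FJ
open Pool.Agent.Y462.SS (Closed)
open Pool.Agent.Helper741 Pool.Agent.K7.H87.FJ6

variable {A I : Type} [Group A] {cj : A → I → I → Prop}

/-- the labels of a pair of conjugates -/
def Lab (cj : A → I → I → Prop) (br : ℕ → A → I → A → I → Prop) (m : ℕ) (x y : Cg cj) : Prop :=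
  ∃ a u i v j, (br m u i v j ∨ br m v j u i) ∧ x = Cg.mk cj (a * u) i ∧ y = Cg.mk cj (a * v) j

variable {br : ℕ → A → I → A → I → Prop}

theorem Lab.symm {m : ℕ} {x y : Cg cj} (h : Lab cj br m x y) : Lab cj br m y x := by
  obtain ⟨a, u, i, v, j, h, hx, hy⟩ := h
  exact ⟨a, v, j, u, i, h.symm, hy, hx⟩

theorem Lab.smul {m : ℕ} {x y : Cg cj} (h : Lab cj br m x y) (b : A) :
    Lab cj br m (b • x) (b • y) := by
  obtain ⟨a, u, i, v, j, h, rfl, rfl⟩ := h
  exact ⟨b * a, u, i, v, j, h, by rw [Cg.smul, mul_assoc], by rw [Cg.smul, mul_assoc]⟩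

theorem Lab.smul_iff {m : ℕ} {x y : Cg cj} (b : A) :
    Lab cj br m (b • x) (b • y) ↔ Lab cj br m x y := by
  refine ⟨fun h => ?_, fun h => h.smul b⟩
  have := h.smul b⁻¹
  rwa [inv_smul_smul, inv_smul_smul] at this

/-- the conditions on the data -/
structure Good (cj : A → I → I → Prop) (br : ℕ → A → I → A → I → Prop) (po : I → ℕ) : Prop where
  two : ∀ m u i v j, br m u i v j → 2 ≤ m
  uniq : ∀ (x y : Cg cj) (m m' : ℕ), x ≠ y → Lab cj br m x y → Lab cj br m' x y → m = m'
  even : ∀ i, Even (po i)
  cj : ∀ u i j, cj u i j → po i = po j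
  odd : ∀ m u i v j, br m u i v j → Odd m → po i = po j

variable {po : I → ℕ}

open Classical in
/-- the Coxeter matrix on the conjugates -/
noncomputable def mat (h : Good cj br po) : CoxeterMatrix (Cg cj) where
  M := Matrix.of fun x y => if x = y then 1 else
    if h : ∃ m, Lab cj br m x y then h.choose else 0
  isSymm := by
    ext x y
    simp only [Matrix.transpose_apply, Matrix.of_apply]
    by_cases hxy : x = y
    · rw [if_pos hxy, if_pos hxy.symm]
    · rw [if_neg hxy, if_neg fun h' => hxy h'.symm]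
      by_cases h1 : ∃ m, Lab cj br m x y
      · have h2 : ∃ m, Lab cj br m y x := ⟨_, h1.choose_spec.symm⟩
        rw [dif_pos h1, dif_pos h2]
        exact h.uniq x y _ _ hxy h2.choose_spec.symm h1.choose_spec
      · have h2 : ¬ ∃ m, Lab cj br m y x := fun ⟨m, hm⟩ => h1 ⟨m, hm.symm⟩
        rw [dif_neg h1, dif_neg h2]
  diagonal x := by simp
  off_diagonal x y hxy := by
    simp only [Matrix.of_apply, if_neg hxy]
    split_ifs with h1
    · obtain ⟨a, u, i, v, j, h2, -, -⟩ := h1.choose_spec
      have h3 : 2 ≤ h1.choose := by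
        rcases h2 with h2 | h2
        · exact h.two _ _ _ _ _ h2
        · exact h.two _ _ _ _ _ h2
      omega
    · decide

theorem mat_of (h : Good cj br po) {m : ℕ} {x y : Cg cj} (hxy : x ≠ y) (hm : Lab cj br m x y) :
    mat h x y = m := by
  classical
  have h1 : mat h x y = if x = y then 1 else
    if h : ∃ m, Lab cj br m x y then h.choose else 0 := by
    unfold mat
    simp only [Matrix.of_apply]
  have h2 : ∃ m, Lab cj br m x y := ⟨m, hm⟩
  rw [h1, if_neg hxy, dif_pos h2]
  exact h.uniq x y _ _ hxy h2.choose_spec hm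

theorem mat_not (h : Good cj br po) {x y : Cg cj} (hxy : x ≠ y)
    (hm : ¬ ∃ m, Lab cj br m x y) : mat h x y = 0 := by
  classical
  have h1 : mat h x y = if x = y then 1 else
    if h : ∃ m, Lab cj br m x y then h.choose else 0 := by
    unfold mat
    simp only [Matrix.of_apply]
  rw [h1, if_neg hxy, dif_neg hm]

theorem mat_smul (h : Good cj br po) (a : A) (x y : Cg cj) :
    mat h (a • x) (a • y) = mat h x y := by
  by_cases hxy : x = y
  · rw [hxy, (mat h).diagonal, (mat h).diagonal]
  · have hxy' : a • x ≠ a • y := fun h' => hxy (MulAction.injective a h')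
    by_cases h1 : ∃ m, Lab cj br m x y
    · obtain ⟨m, hm⟩ := h1
      rw [mat_of h hxy hm, mat_of h hxy' (hm.smul a)]
    · rw [mat_not h hxy h1, mat_not h hxy' fun ⟨m, hm⟩ => h1 ⟨m, (Lab.smul_iff a).1 hm⟩]

/-- the exponents on the conjugates -/
def ex (h : Good cj br po) (x : Cg cj) : ℕ :=
  Quot.lift (fun p : A × I => po p.2) (by
    rintro _ _ ⟨a, u, i, j, h', rfl, rfl⟩
    exact h.cj u i j h') x

theorem ex_mk (h : Good cj br po) (a : A) (i : I) : ex h (Cg.mk cj a i) = po i := rfl

theorem ex_smul (h : Good cj br po) (a : A) (x : Cg cj) : ex h (a • x) = ex h x := by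
  obtain ⟨b, i, rfl⟩ := x.ex
  rfl

theorem adm (h : Good cj br po) : Adm (mat h) (ex h) where
  even x := by
    obtain ⟨b, i, rfl⟩ := x.ex
    exact h.even i
  odd x y hxy := by
    by_cases he : x = y
    · rw [he]
    · by_cases h1 : ∃ m, Lab cj br m x y
      · obtain ⟨m, hm⟩ := h1
        rw [mat_of h he hm] at hxy
        obtain ⟨a, u, i, v, j, h2, rfl, rfl⟩ := hm
        rw [ex_mk, ex_mk]
        rcases h2 with h2 | h2
        · exact h.odd _ _ _ _ _ h2 hxy
        · exact (h.odd _ _ _ _ _ h2 hxy).symm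
      · rw [mat_not h he h1] at hxy
        exact absurd hxy (by decide)

/-- the relations are satisfied -/
structure SatB (cj : A → I → I → Prop) (br : ℕ → A → I → A → I → Prop) (po : I → ℕ) {X : Type}
    [Group X] (s : A →* X) (t : I → X) : Prop where
  conj : ∀ u i j, cj u i j → s u * t i * (s u)⁻¹ = t j
  braid : ∀ m u i v j, br m u i v j →
    alt (s u * t i * (s u)⁻¹) (s v * t j * (s v)⁻¹) m =
      alt (s v * t j * (s v)⁻¹) (s u * t i * (s u)⁻¹) m
  pow : ∀ i, t i ^ po i = 1

/-- the endomorphism of the Shephard group -/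
noncomputable def actHom (h : Good cj br po) (a : A) : Sh (mat h) (ex h) →* Sh (mat h) (ex h) :=
  Sh.lift (fun x => Sh.gen (mat h) (ex h) (a • x))
    (fun x y => by rw [← mat_smul h a x y]; exact Sh.rel _ _)
    (fun x => by rw [← ex_smul h a x]; exact Sh.pow _)

theorem actHom_gen (h : Good cj br po) (a : A) (x : Cg cj) :
    actHom h a (Sh.gen (mat h) (ex h) x) = Sh.gen (mat h) (ex h) (a • x) := Sh.lift_gen _ _ _ _

/-- the action on the Shephard group -/
noncomputable def actB (h : Good cj br po) : A →* MulAut (Sh (mat h) (ex h)) where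
  toFun a := MonoidHom.toMulEquiv (actHom h a) (actHom h a⁻¹)
    (Sh.hom_ext fun x => by
      rw [MonoidHom.comp_apply, actHom_gen, actHom_gen, inv_smul_smul]
      rfl)
    (Sh.hom_ext fun x => by
      rw [MonoidHom.comp_apply, actHom_gen, actHom_gen, smul_inv_smul]
      rfl)
  map_one' := by
    apply MulEquiv.toMonoidHom_injective
    refine Sh.hom_ext fun x => ?_
    show actHom h 1 (Sh.gen (mat h) (ex h) x) = Sh.gen (mat h) (ex h) x
    rw [actHom_gen, one_smul]
  map_mul' a b := by
    apply MulEquiv.toMonoidHom_injective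
    refine Sh.hom_ext fun x => ?_
    show actHom h (a * b) (Sh.gen (mat h) (ex h) x) =
      actHom h a (actHom h b (Sh.gen (mat h) (ex h) x))
    rw [actHom_gen, actHom_gen, actHom_gen, mul_smul]

theorem actB_gen (h : Good cj br po) (a : A) (x : Cg cj) :
    actB h a (Sh.gen (mat h) (ex h) x) = Sh.gen (mat h) (ex h) (a • x) := actHom_gen h a x

/-- the semidirect product -/
abbrev WB (h : Good cj br po) : Type := Sh (mat h) (ex h) ⋊[actB h] A

/-- the new generators -/
noncomputable def tB (h : Good cj br po) (i : I) : WB h :=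
  SemidirectProduct.inl (Sh.gen (mat h) (ex h) (Cg.mk cj 1 i))

theorem conj_tB (h : Good cj br po) (u : A) (i : I) :
    (SemidirectProduct.inr u : WB h) * tB h i * (SemidirectProduct.inr u)⁻¹ =
      SemidirectProduct.inl (Sh.gen (mat h) (ex h) (Cg.mk cj u i)) := by
  rw [tB, ← map_inv, ← SemidirectProduct.inl_aut, actB_gen, Cg.smul, mul_one]

theorem satB0 (h : Good cj br po) :
    SatB cj br po (SemidirectProduct.inr : A →* WB h) (tB h) where
  conj u i j hc := by
    rw [conj_tB, tB]
    have := Cg.rel hc 1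
    rw [one_mul] at this
    rw [this]
  braid m u i v j hb := by
    rw [conj_tB, conj_tB, ← map_alt, ← map_alt]
    congr 1
    by_cases hne : Cg.mk cj u i = Cg.mk cj v j
    · rw [hne]
    · have h1 : Lab cj br m (Cg.mk cj u i) (Cg.mk cj v j) :=
        ⟨1, u, i, v, j, Or.inl hb, by rw [one_mul], by rw [one_mul]⟩
      have h2 := Sh.rel (M := mat h) (p := ex h) (Cg.mk cj u i) (Cg.mk cj v j)
      rw [mat_of h hne h1] at h2
      exact h2
  pow i := by
    rw [tB, ← map_pow]
    have h2 := Sh.pow (M := mat h) (p := ex h) (Cg.mk cj 1 i)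
    rw [ex_mk] at h2
    rw [h2, map_one]

variable {G : Type} [Group G] {s : A →* G} {t : I → G}

/-- the image of a conjugate -/
def vB (hs : SatB cj br po s t) (x : Cg cj) : G :=
  Quot.lift (fun p : A × I => s p.1 * t p.2 * (s p.1)⁻¹) (by
    rintro _ _ ⟨a, u, i, j, h, rfl, rfl⟩
    show s (a * u) * t i * (s (a * u))⁻¹ = s a * t j * (s a)⁻¹
    rw [← hs.conj u i j h, map_mul]
    group) x

theorem vB_mk (hs : SatB cj br po s t) (a : A) (i : I) :
    vB hs (Cg.mk cj a i) = s a * t i * (s a)⁻¹ := rfl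

/-- the homomorphism of the Shephard group -/
noncomputable def lB (h : Good cj br po) (hs : SatB cj br po s t) : Sh (mat h) (ex h) →* G :=
  Sh.lift (vB hs) (by
    intro x y
    by_cases hxy : x = y
    · rw [hxy]
    · by_cases h1 : ∃ m, Lab cj br m x y
      · obtain ⟨m, hm⟩ := h1
        rw [mat_of h hxy hm]
        obtain ⟨c, u, i, v, j, h2, rfl, rfl⟩ := hm
        have h3 : alt (s u * t i * (s u)⁻¹) (s v * t j * (s v)⁻¹) m =
            alt (s v * t j * (s v)⁻¹) (s u * t i * (s u)⁻¹) m := by
          rcases h2 with h2 | h2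
          · exact hs.braid m u i v j h2
          · exact (hs.braid m v j u i h2).symm
        have h4 := congrArg (MulAut.conj (s c)).toMonoidHom h3
        rw [map_alt, map_alt] at h4
        have h5 : ∀ (w : A) (l : I), vB hs (Cg.mk cj (c * w) l) =
            (MulAut.conj (s c)).toMonoidHom (s w * t l * (s w)⁻¹) := by
          intro w l
          show s (c * w) * t l * (s (c * w))⁻¹ = s c * (s w * t l * (s w)⁻¹) * (s c)⁻¹
          rw [map_mul]
          group
        rw [h5, h5]
        exact h4
      · rw [mat_not h hxy h1, alt_zero, alt_zero]) (by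
    intro x
    obtain ⟨a, i, rfl⟩ := x.ex
    have h1 : ∀ n : ℕ, (s a * t i * (s a)⁻¹) ^ n = s a * t i ^ n * (s a)⁻¹ := by
      intro n
      induction n with
      | zero => simp
      | succ n ih => rw [pow_succ, ih, pow_succ]; group
    rw [vB_mk, ex_mk, h1, hs.pow]
    group)

theorem lB_gen (h : Good cj br po) (hs : SatB cj br po s t) (x : Cg cj) :
    lB h hs (Sh.gen (mat h) (ex h) x) = vB hs x := Sh.lift_gen _ _ _ _

/-- the homomorphism of the semidirect product -/
noncomputable def lwB (h : Good cj br po) (hs : SatB cj br po s t) : WB h →* G :=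
  SemidirectProduct.lift (lB h hs) s (by
    intro g
    refine Sh.hom_ext fun x => ?_
    show lB h hs (actB h g (Sh.gen (mat h) (ex h) x)) =
      s g * lB h hs (Sh.gen (mat h) (ex h) x) * (s g)⁻¹
    rw [actB_gen, lB_gen, lB_gen]
    obtain ⟨a, i, rfl⟩ := x.ex
    rw [Cg.smul, vB_mk, vB_mk, map_mul]
    group)

theorem lwB_inr (h : Good cj br po) (hs : SatB cj br po s t) (a : A) :
    lwB h hs (SemidirectProduct.inr a) = s a :=
  SemidirectProduct.lift_inr _ _ _ _

theorem lwB_tB (h : Good cj br po) (hs : SatB cj br po s t) (i : I) :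
    lwB h hs (tB h i) = t i := by
  rw [tB, lwB, SemidirectProduct.lift_inl, lB_gen, vB_mk, map_one]
  group

/-- **relative Shephard presentations** -/
theorem presB {C : ∀ (G : Type) [Group G], Prop} (hC : ClosedE C)
    (hcox : ∀ (S : Type) [Finite S] (A : CoxeterMatrix S), C A.Group)
    (h : Good cj br po) (hs : SatB cj br po s t)
    (huniv : ∀ (X : Type) [Group X] (s' : A →* X) (t' : I → X), SatB cj br po s' t' →
      ∃ f : G →* X, (∀ a, f (s a) = s' a) ∧ ∀ i, f (t i) = t' i)
    (hgen : ∀ f : G →* G, (∀ a, f (s a) = s a) → (∀ i, f (t i) = t i) → ∀ x, f x = x) :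
    C G ↔ C (Sh (mat h) (ex h)) ∧ C A := by
  have hW : C (WB h) ↔ C (Sh (mat h) (ex h)) ∧ C A :=
    Run7.h952.AW.semi_sh hC hcox (Cg cj) (mat h) (ex h) (adm h) A (actB h) fun g =>
      ⟨MulAction.toPerm g, 1, fun x y => mat_smul h g x y, fun x => ex_smul h g x, fun x => by
        rw [actB_gen, one_mul, inv_one, mul_one]
        rfl⟩
  obtain ⟨f, hfs, hft⟩ := huniv (WB h) SemidirectProduct.inr (tB h) (satB0 h)
  have hfinj : Function.Injective f := by
    intro x y hxy
    have h1 := hgen ((lwB h hs).comp f) (fun a => by rw [MonoidHom.comp_apply, hfs, lwB_inr])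
      (fun i => by rw [MonoidHom.comp_apply, hft, lwB_tB])
    rw [← h1 x, ← h1 y, MonoidHom.comp_apply, MonoidHom.comp_apply, hxy]
  have hinj : Function.Injective (lwB h hs) := by
    have h2 : f.comp (lwB h hs) = MonoidHom.id _ := by
      apply SemidirectProduct.hom_ext
      · refine Sh.hom_ext fun x => ?_
        show f (lwB h hs (SemidirectProduct.inl (Sh.gen (mat h) (ex h) x))) =
          SemidirectProduct.inl (Sh.gen (mat h) (ex h) x)
        obtain ⟨a, i, rfl⟩ := x.ex
        rw [lwB, SemidirectProduct.lift_inl, lB_gen, vB_mk, map_mul, map_mul, map_inv, hfs, hft,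
          conj_tB]
      · ext a : 1
        show f (lwB h hs (SemidirectProduct.inr a)) = SemidirectProduct.inr a
        rw [lwB_inr, hfs]
    intro x y hxy
    have h3 := DFunLike.congr_fun h2 x
    have h4 := DFunLike.congr_fun h2 y
    rw [MonoidHom.comp_apply, MonoidHom.id_apply] at h3 h4
    rw [← h3, ← h4, hxy]
  rw [← hW]
  exact ⟨fun h' => hC.base.of_injective _ _ (lwB h hs) hinj h',
    fun h' => hC.base.of_injective _ _ f hfinj h'⟩

end Run7.h872.SG
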