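import Pool.Agent.Run7.h872.SG.Pres

/-!
# Free extensions of centralizers with commuting conjugates
-/

set_option autoImplicit false

namespace Run7.h872.SG

open Pool.Agent.Y110.FJ
open Pool.Agent.Y462.SS (Closed)

section cen

variable {A : Type} [Group A]

/-- the relators -/
def relC (S D : Set A) (K : Type) [Group K] : Set (Monoid.Coprod A K) :=
  {r | (∃ h ∈ S, ∃ k : K, r = (Monoid.Coprod.inl h * Monoid.Coprod.inr k) *
      (Monoid.Coprod.inr k * Monoid.Coprod.inl h)⁻¹) ∨
    ∃ d ∈ D, ∃ k l : K, r = (Monoid.Coprod.inr k *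
        (Monoid.Coprod.inl d * Monoid.Coprod.inr l * (Monoid.Coprod.inl d)⁻¹)) *
      ((Monoid.Coprod.inl d * Monoid.Coprod.inr l * (Monoid.Coprod.inl d)⁻¹) *
        Monoid.Coprod.inr k)⁻¹}

/-- the group with this relative presentation -/
abbrev RC (S D : Set A) (K : Type) [Group K] : Type :=
  Monoid.Coprod A K ⧸ Subgroup.normalClosure (relC S D K)

theorem rc_mem {C : ∀ (G : Type) [Group G], Prop} (hC : ClosedE C) (S D : Set A) (K : Type)
    [Group K] (hK : (∀ k l : K, k * l = l * k) ∨ ∀ d ∈ D, d ∉ Subgroup.closure S) :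
    C (RC S D K) ↔ C A ∧ C K := by
  let q : Monoid.Coprod A K →* RC S D K := QuotientGroup.mk' _
  have hq : ∀ r ∈ relC S D K, q r = 1 := fun r hr =>
    (QuotientGroup.eq_one_iff _).2 (Subgroup.subset_normalClosure hr)
  let cj : A → Unit → Unit → Prop := fun u _ _ => u ∈ S
  let cm : A → Unit → A → Unit → Prop := fun u _ v _ => u = 1 ∧ v ∈ D
  have hinv : ∀ a b : A, Cg.mk cj a () = Cg.mk cj b () → a⁻¹ * b ∈ Subgroup.closure S := by
    intro a b hab
    let F : Cg cj → A ⧸ Subgroup.closure S := fun x =>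
      Quot.lift (fun p : A × Unit => (QuotientGroup.mk p.1 : A ⧸ Subgroup.closure S)) (by
        rintro _ _ ⟨c, u, i, j, h, rfl, rfl⟩
        show (QuotientGroup.mk (c * u) : A ⧸ Subgroup.closure S) = QuotientGroup.mk c
        rw [QuotientGroup.eq]
        have h1 : (c * u)⁻¹ * c = u⁻¹ := by group
        rw [h1]
        exact Subgroup.inv_mem _ (Subgroup.subset_closure h)) x
    have h1 : F (Cg.mk cj a ()) = F (Cg.mk cj b ()) := by rw [hab]
    have h2 : (QuotientGroup.mk a : A ⧸ Subgroup.closure S) = QuotientGroup.mk b := h1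
    exact QuotientGroup.eq.1 h2
  refine pres (A := A) (I := Unit) (cj := cj) (cm := cm) (K := K) (G := RC S D K)
    (s := q.comp Monoid.Coprod.inl) (t := fun _ => q.comp Monoid.Coprod.inr) hC ?_ ⟨?_, ?_⟩ ?_ ?_
  · rcases hK with hK | hK
    · exact Or.inl hK
    · refine Or.inr ?_
      rintro u ⟨⟩ v ⟨⟩ ⟨rfl, hv⟩ h
      have := hinv _ _ h
      rw [inv_one, one_mul] at this
      exact hK v hv this
  · intro u i j h k
    have h1 := hq _ (Or.inl ⟨u, h, k, rfl⟩)
    rw [map_mul, map_inv, mul_inv_eq_one, map_mul, map_mul] at h1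
    show q (Monoid.Coprod.inl u) * q (Monoid.Coprod.inr k) * (q (Monoid.Coprod.inl u))⁻¹ = _
    rw [mul_inv_eq_iff_eq_mul]
    exact h1
  · rintro u i v j ⟨rfl, h⟩ k l
    have h1 := hq _ (Or.inr ⟨v, h, k, l, rfl⟩)
    rw [map_mul, map_inv, mul_inv_eq_one] at h1
    simpa using h1
  · intro X _ s' t' hs
    let F : Monoid.Coprod A K →* X := Monoid.Coprod.lift s' (t' ())
    have hF1 : ∀ a, F (Monoid.Coprod.inl a) = s' a := fun a => Monoid.Coprod.lift_apply_inl _ _ _
    have hF2 : ∀ k, F (Monoid.Coprod.inr k) = t' () k := fun k =>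
      Monoid.Coprod.lift_apply_inr _ _ _
    refine ⟨QuotientGroup.lift _ F ?_, fun a => hF1 a, fun i k => hF2 k⟩
    intro x hx
    have h1 : Subgroup.normalClosure (relC S D K) ≤ F.ker := by
      apply Subgroup.normalClosure_le_normal
      rintro _ (⟨h, hh, k, rfl⟩ | ⟨d, hd, k, l, rfl⟩)
      · rw [SetLike.mem_coe, MonoidHom.mem_ker, map_mul, map_inv, mul_inv_eq_one, map_mul, map_mul,
          hF1, hF2, ← mul_inv_eq_iff_eq_mul]
        exact hs.conj h () () hh k
      · rw [SetLike.mem_coe, MonoidHom.mem_ker, map_mul, map_inv, mul_inv_eq_one]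
        simp only [map_mul, map_inv, hF1, hF2]
        have := hs.comm 1 () d () ⟨rfl, hd⟩ k l
        simpa using this
    exact h1 hx
  · intro f hf1 hf2 x
    have h1 : f = MonoidHom.id _ := by
      apply QuotientGroup.monoidHom_ext
      apply Monoid.Coprod.hom_ext
      · ext a : 1
        exact hf1 a
      · ext k : 1
        exact hf2 () k
    rw [h1]
    rfl

end cen

end Run7.h872.SG
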