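import Pool.Agent.Run7.h872.SG.Braid

/-!
# Relative presentations, singular Artin groups
-/

set_option autoImplicit false

namespace Run7.h872.SG

open Pool.Agent.Y110.FJ
open Pool.Agent.Y462.SS (Closed)
open Pool.Agent.Helper741 Pool.Agent.K7.H87.FJ6

section gp

variable {A I : Type} [Group A]

/-- the free product of `A` and copies of `K` -/
abbrev Cp (A I K : Type) [Group A] [Group K] : Type :=
  Monoid.Coprod A (Monoid.CoprodI fun _ : I => K)

/-- the inclusion of `A` -/
def ca (A I K : Type) [Group A] [Group K] : A →* Cp A I K := Monoid.Coprod.inl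

/-- the inclusion of a copy of `K` -/
def ck (A : Type) {I : Type} (K : Type) [Group A] [Group K] (i : I) : K →* Cp A I K :=
  Monoid.Coprod.inr.comp (Monoid.CoprodI.of (M := fun _ : I => K) (i := i))

/-- the relators -/
def relG (cj : A → I → I → Prop) (cm : A → I → A → I → Prop) (K : Type) [Group K] :
    Set (Cp A I K) :=
  {r | (∃ u i j k, cj u i j ∧
      r = (ca A I K u * ck A K i k * (ca A I K u)⁻¹) * (ck A K j k)⁻¹) ∨
    ∃ u i v j k l, cm u i v j ∧
      r = ((ca A I K u * ck A K i k * (ca A I K u)⁻¹) *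
        (ca A I K v * ck A K j l * (ca A I K v)⁻¹)) *
        ((ca A I K v * ck A K j l * (ca A I K v)⁻¹) *
        (ca A I K u * ck A K i k * (ca A I K u)⁻¹))⁻¹}

/-- the group with this relative presentation -/
abbrev RG (cj : A → I → I → Prop) (cm : A → I → A → I → Prop) (K : Type) [Group K] : Type :=
  Cp A I K ⧸ Subgroup.normalClosure (relG cj cm K)

theorem rg_mem {C : ∀ (G : Type) [Group G], Prop} (hC : ClosedE C) [Nonempty I]
    (cj : A → I → I → Prop) (cm : A → I → A → I → Prop) (K : Type) [Group K]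
    (hK : (∀ k l : K, k * l = l * k) ∨
      ∀ u i v j, cm u i v j → Cg.mk cj u i ≠ Cg.mk cj v j) :
    C (RG cj cm K) ↔ C A ∧ C K := by
  let q : Cp A I K →* RG cj cm K := QuotientGroup.mk' _
  have hq : ∀ r ∈ relG cj cm K, q r = 1 := fun r hr =>
    (QuotientGroup.eq_one_iff _).2 (Subgroup.subset_normalClosure hr)
  refine pres hC hK (G := RG cj cm K) (s := q.comp (ca A I K))
    (t := fun i => q.comp (ck A K i)) ⟨?_, ?_⟩ ?_ ?_
  · intro u i j h k
    have h1 := hq _ (Or.inl ⟨u, i, j, k, h, rfl⟩)
    rw [map_mul, map_inv, mul_inv_eq_one] at h1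
    simpa using h1
  · intro u i v j h k l
    have h1 := hq _ (Or.inr ⟨u, i, v, j, k, l, h, rfl⟩)
    rw [map_mul, map_inv, mul_inv_eq_one] at h1
    simpa using h1
  · intro X _ s' t' hs
    let F : Cp A I K →* X := Monoid.Coprod.lift s' (Monoid.CoprodI.lift t')
    have hF1 : ∀ a, F (ca A I K a) = s' a := fun a => Monoid.Coprod.lift_apply_inl _ _ _
    have hF2 : ∀ i k, F (ck A K i k) = t' i k := by
      intro i k
      show Monoid.Coprod.lift s' (Monoid.CoprodI.lift t') (Monoid.Coprod.inr _) = _
      rw [Monoid.Coprod.lift_apply_inr, Monoid.CoprodI.lift_of]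
    refine ⟨QuotientGroup.lift _ F ?_, fun a => hF1 a, fun i k => hF2 i k⟩
    intro x hx
    have h1 : Subgroup.normalClosure (relG cj cm K) ≤ F.ker := by
      apply Subgroup.normalClosure_le_normal
      rintro _ (⟨u, i, j, k, h, rfl⟩ | ⟨u, i, v, j, k, l, h, rfl⟩)
      · rw [SetLike.mem_coe, MonoidHom.mem_ker, map_mul, map_inv, mul_inv_eq_one, map_mul, map_mul,
          map_inv, hF1, hF2, hF2]
        exact hs.conj u i j h k
      · rw [SetLike.mem_coe, MonoidHom.mem_ker, map_mul, map_inv, mul_inv_eq_one]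
        simp only [map_mul, map_inv, hF1, hF2]
        exact hs.comm u i v j h k l
    exact h1 hx
  · intro f hf1 hf2 x
    have h1 : f = MonoidHom.id _ := by
      apply QuotientGroup.monoidHom_ext
      apply Monoid.Coprod.hom_ext
      · ext a : 1
        exact hf1 a
      · apply Monoid.CoprodI.ext_hom
        intro i
        ext k : 1
        exact hf2 i k
    rw [h1]
    rfl

end gp

section br

variable {A I : Type} [Group A]

/-- the relators -/
def relB (cj : A → I → I → Prop) (br : ℕ → A → I → A → I → Prop) (po : I → ℕ) :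
    Set (Monoid.Coprod A (FreeGroup I)) :=
  {r | (∃ u i j, cj u i j ∧
      r = (Monoid.Coprod.inl u * Monoid.Coprod.inr (FreeGroup.of i) *
        (Monoid.Coprod.inl u)⁻¹) * (Monoid.Coprod.inr (FreeGroup.of j))⁻¹) ∨
    (∃ m u i v j, br m u i v j ∧
      r = alt (Monoid.Coprod.inl u * Monoid.Coprod.inr (FreeGroup.of i) *
          (Monoid.Coprod.inl u)⁻¹)
        (Monoid.Coprod.inl v * Monoid.Coprod.inr (FreeGroup.of j) *
          (Monoid.Coprod.inl v)⁻¹) m *
        (alt (Monoid.Coprod.inl v * Monoid.Coprod.inr (FreeGroup.of j) *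
          (Monoid.Coprod.inl v)⁻¹)
        (Monoid.Coprod.inl u * Monoid.Coprod.inr (FreeGroup.of i) *
          (Monoid.Coprod.inl u)⁻¹) m)⁻¹) ∨
    ∃ i, r = Monoid.Coprod.inr (FreeGroup.of i) ^ po i}

/-- the group with this relative presentation -/
abbrev RB (cj : A → I → I → Prop) (br : ℕ → A → I → A → I → Prop) (po : I → ℕ) : Type :=
  Monoid.Coprod A (FreeGroup I) ⧸ Subgroup.normalClosure (relB cj br po)

theorem rb_mem {C : ∀ (G : Type) [Group G], Prop} (hC : ClosedE C)
    (hcox : ∀ (S : Type) [Finite S] (A : CoxeterMatrix S), C A.Group)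
    (cj : A → I → I → Prop) (br : ℕ → A → I → A → I → Prop) (po : I → ℕ) (h : Good cj br po) :
    C (RB cj br po) ↔ C (Sh (mat h) (ex h)) ∧ C A := by
  let q : Monoid.Coprod A (FreeGroup I) →* RB cj br po := QuotientGroup.mk' _
  have hq : ∀ r ∈ relB cj br po, q r = 1 := fun r hr =>
    (QuotientGroup.eq_one_iff _).2 (Subgroup.subset_normalClosure hr)
  refine presB hC hcox h (G := RB cj br po) (s := q.comp Monoid.Coprod.inl)
    (t := fun i => q (Monoid.Coprod.inr (FreeGroup.of i))) ⟨?_, ?_, ?_⟩ ?_ ?_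
  · intro u i j h
    have h1 := hq _ (Or.inl ⟨u, i, j, h, rfl⟩)
    rw [map_mul, map_inv, mul_inv_eq_one] at h1
    simpa using h1
  · intro m u i v j h
    have h1 := hq _ (Or.inr (Or.inl ⟨m, u, i, v, j, h, rfl⟩))
    rw [map_mul, map_inv, mul_inv_eq_one, map_alt, map_alt] at h1
    simpa using h1
  · intro i
    have h1 := hq _ (Or.inr (Or.inr ⟨i, rfl⟩))
    rw [map_pow] at h1
    exact h1
  · intro X _ s' t' hs
    let F : Monoid.Coprod A (FreeGroup I) →* X :=
      Monoid.Coprod.lift s' (FreeGroup.lift t')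
    have hF1 : ∀ a, F (Monoid.Coprod.inl a) = s' a := fun a => Monoid.Coprod.lift_apply_inl _ _ _
    have hF2 : ∀ i, F (Monoid.Coprod.inr (FreeGroup.of i)) = t' i := by
      intro i
      show Monoid.Coprod.lift s' (FreeGroup.lift t') _ = _
      rw [Monoid.Coprod.lift_apply_inr, FreeGroup.lift_apply_of]
    refine ⟨QuotientGroup.lift _ F ?_, fun a => hF1 a, fun i => hF2 i⟩
    intro x hx
    have h1 : Subgroup.normalClosure (relB cj br po) ≤ F.ker := by
      apply Subgroup.normalClosure_le_normal
      rintro _ (⟨u, i, j, h, rfl⟩ | ⟨m, u, i, v, j, h, rfl⟩ | ⟨i, rfl⟩)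
      · rw [SetLike.mem_coe, MonoidHom.mem_ker, map_mul, map_inv, mul_inv_eq_one, map_mul, map_mul,
          map_inv, hF1, hF2, hF2]
        exact hs.conj u i j h
      · rw [SetLike.mem_coe, MonoidHom.mem_ker, map_mul, map_inv, mul_inv_eq_one, map_alt, map_alt]
        simp only [map_mul, map_inv, hF1, hF2]
        exact hs.braid m u i v j h
      · rw [SetLike.mem_coe, MonoidHom.mem_ker, map_pow, hF2]
        exact hs.pow i
    exact h1 hx
  · intro f hf1 hf2 x
    have h1 : f = MonoidHom.id _ := by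
      apply QuotientGroup.monoidHom_ext
      apply Monoid.Coprod.hom_ext
      · ext a : 1
        exact hf1 a
      · apply FreeGroup.ext_hom
        intro i
        exact hf2 i
    rw [h1]
    rfl

end br

section cyc

variable {p : ℕ} {X : Type} [Group X]

/-- homomorphisms of cyclic groups -/
noncomputable def zl (p : ℕ) (x : X) (h : x ^ p = 1) : Multiplicative (ZMod p) →* X :=
  AddMonoidHom.toMultiplicativeLeft (ZMod.lift p ⟨zmultiplesHom (Additive X) (Additive.ofMul x), by
    rw [zmultiplesHom_apply, natCast_zsmul, ← ofMul_pow, h]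
    rfl⟩)

theorem zl_one (x : X) (h : x ^ p = 1) : zl p x h (Multiplicative.ofAdd 1) = x := by
  have h1 : (ZMod.lift p ⟨zmultiplesHom (Additive X) (Additive.ofMul x), by
    rw [zmultiplesHom_apply, natCast_zsmul, ← ofMul_pow, h]
    rfl⟩) ((1 : ℤ) : ZMod p) = Additive.ofMul x := by
    rw [ZMod.lift_coe, zmultiplesHom_apply, one_zsmul]
  rw [Int.cast_one] at h1
  exact congrArg Additive.toMul h1

theorem zpow_ex (k : Multiplicative (ZMod p)) : ∃ n : ℤ, k = Multiplicative.ofAdd 1 ^ n := by
  obtain ⟨n, hn⟩ := ZMod.intCast_surjective (Multiplicative.toAdd k)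
  refine ⟨n, ?_⟩
  rw [← ofAdd_zsmul, zsmul_one, hn]
  rfl

theorem zext {f g : Multiplicative (ZMod p) →* X}
    (h : f (Multiplicative.ofAdd 1) = g (Multiplicative.ofAdd 1)) (k : Multiplicative (ZMod p)) :
    f k = g k := by
  obtain ⟨n, rfl⟩ := zpow_ex k
  rw [map_zpow, map_zpow, h]

theorem mem_fin {C : ∀ (G : Type) [Group G], Prop} (hC : ClosedE C) (G : Type) [Group G]
    [Finite G] : C G := by
  refine hC.base.finiteIndex G ⊥ inferInstance ?_
  exact hC.base.of_injective _ (Multiplicative ℤ) 1 (fun x y _ => Subsingleton.elim x y) hC.base.int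

theorem mem_sub {C : ∀ (G : Type) [Group G], Prop} (hC : ClosedE C) (G : Type) [Group G]
    [Subsingleton G] : C G :=
  hC.base.of_injective _ (Multiplicative ℤ) 1 (fun x y _ => Subsingleton.elim x y) hC.base.int

theorem mem_zmod {C : ∀ (G : Type) [Group G], Prop} (hC : ClosedE C) (p : ℕ) :
    C (Multiplicative (ZMod p)) := by
  rcases Nat.eq_zero_or_pos p with rfl | hp
  · exact hC.base.int
  · have : NeZero p := ⟨hp.ne'⟩
    have : Finite (Multiplicative (ZMod p)) := inferInstanceAs (Finite (ZMod p))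
    exact mem_fin hC _

end cyc

section sa

variable {B : Type} (M : CoxeterMatrix B) (p : ℕ)

/-- the relators of the singular Artin group -/
def relS : Set (FreeGroup (B ⊕ B)) :=
  {r | (∃ i j, r = alt (FreeGroup.of (Sum.inl i)) (FreeGroup.of (Sum.inl j)) (M i j) *
      (alt (FreeGroup.of (Sum.inl j)) (FreeGroup.of (Sum.inl i)) (M i j))⁻¹) ∨
    (∃ i, r = FreeGroup.of (Sum.inr i) ^ p) ∨
    (∃ i, r = FreeGroup.of (Sum.inl i) * FreeGroup.of (Sum.inr i) *
      (FreeGroup.of (Sum.inr i) * FreeGroup.of (Sum.inl i))⁻¹) ∨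
    (∃ i j, 2 ≤ M i j ∧
      r = alt (FreeGroup.of (Sum.inl j)) (FreeGroup.of (Sum.inl i)) (M i j - 1) *
        FreeGroup.of (Sum.inr (if Even (M i j) then i else j)) *
        (FreeGroup.of (Sum.inr i) *
          alt (FreeGroup.of (Sum.inl j)) (FreeGroup.of (Sum.inl i)) (M i j - 1))⁻¹) ∨
    ∃ i j, M i j = 2 ∧ r = FreeGroup.of (Sum.inr i) * FreeGroup.of (Sum.inr j) *
      (FreeGroup.of (Sum.inr j) * FreeGroup.of (Sum.inr i))⁻¹}

/-- the singular Artin group; the relations `τ_i ^ p = 1` are added, they are empty for `p = 0` -/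
abbrev SA : Type := PresentedGroup (relS M p)

variable {M p}

/-- the images of the generators satisfy the relations -/
structure SatS {X : Type} [Group X] (M : CoxeterMatrix B) (p : ℕ) (σ τ : B → X) : Prop where
  br : ∀ i j, alt (σ i) (σ j) (M i j) = alt (σ j) (σ i) (M i j)
  pow : ∀ i, τ i ^ p = 1
  com : ∀ i, σ i * τ i = τ i * σ i
  mix : ∀ i j, 2 ≤ M i j → alt (σ j) (σ i) (M i j - 1) * τ (if Even (M i j) then i else j) =
    τ i * alt (σ j) (σ i) (M i j - 1)
  sng : ∀ i j, M i j = 2 → τ i * τ j = τ j * τ i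

theorem satS : SatS M p (fun i => (PresentedGroup.of (Sum.inl i) : SA M p))
    (fun i => (PresentedGroup.of (Sum.inr i) : SA M p)) where
  br i j := by
    have h : (PresentedGroup.mk (relS M p)) _ = 1 :=
      PresentedGroup.one_of_mem (Or.inl ⟨i, j, rfl⟩)
    rw [map_mul, map_inv, mul_inv_eq_one, map_alt, map_alt] at h
    exact h
  pow i := by
    have h : (PresentedGroup.mk (relS M p)) _ = 1 :=
      PresentedGroup.one_of_mem (Or.inr (Or.inl ⟨i, rfl⟩))
    rw [map_pow] at h
    exact h
  com i := by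
    have h : (PresentedGroup.mk (relS M p)) _ = 1 :=
      PresentedGroup.one_of_mem (Or.inr (Or.inr (Or.inl ⟨i, rfl⟩)))
    rw [map_mul, map_inv, mul_inv_eq_one, map_mul, map_mul] at h
    exact h
  mix i j hij := by
    have h : (PresentedGroup.mk (relS M p)) _ = 1 :=
      PresentedGroup.one_of_mem (Or.inr (Or.inr (Or.inr (Or.inl ⟨i, j, hij, rfl⟩))))
    rw [map_mul, map_inv, mul_inv_eq_one, map_mul, map_mul, map_alt] at h
    exact h
  sng i j hij := by
    have h : (PresentedGroup.mk (relS M p)) _ = 1 :=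
      PresentedGroup.one_of_mem (Or.inr (Or.inr (Or.inr (Or.inr ⟨i, j, hij, rfl⟩))))
    rw [map_mul, map_inv, mul_inv_eq_one, map_mul, map_mul] at h
    exact h

/-- the universal property -/
def liftS {X : Type} [Group X] {σ τ : B → X} (h : SatS M p σ τ) : SA M p →* X :=
  PresentedGroup.toGroup (f := Sum.elim σ τ) (by
    rintro _ (⟨i, j, rfl⟩ | ⟨i, rfl⟩ | ⟨i, rfl⟩ | ⟨i, j, hij, rfl⟩ | ⟨i, j, hij, rfl⟩)
    · rw [map_mul, map_inv, mul_inv_eq_one, map_alt, map_alt]
      simpa using h.br i j
    · rw [map_pow]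
      simpa using h.pow i
    · rw [map_mul, map_inv, mul_inv_eq_one]
      simpa using h.com i
    · rw [map_mul, map_inv, mul_inv_eq_one, map_mul, map_mul, map_alt]
      simpa using h.mix i j hij
    · rw [map_mul, map_inv, mul_inv_eq_one]
      simpa using h.sng i j hij)

/-- the conjugation relations of the singular generators -/
def cjS (M : CoxeterMatrix B) (u : Sh M (fun _ => 0)) (k i : B) : Prop :=
  (u = Sh.gen M _ i ∧ k = i) ∨ ∃ j, 2 ≤ M i j ∧
    u = alt (Sh.gen M _ j) (Sh.gen M _ i) (M i j - 1) ∧ k = if Even (M i j) then i else j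

/-- the commutation relations of the singular generators -/
def cmS (M : CoxeterMatrix B) (u : Sh M (fun _ => 0)) (i : B) (v : Sh M (fun _ => 0)) (j : B) :
    Prop := u = 1 ∧ v = 1 ∧ M i j = 2

/-- the homomorphism of the Artin group -/
noncomputable def aS {X : Type} [Group X] {σ τ : B → X} (h : SatS M p σ τ) :
    Sh M (fun _ => 0) →* X := Sh.lift σ h.br (fun _ => pow_zero _)

theorem aS_gen {X : Type} [Group X] {σ τ : B → X} (h : SatS M p σ τ) (i : B) :
    aS h (Sh.gen M _ i) = σ i := Sh.lift_gen _ _ _ _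

theorem sa_mem {C : ∀ (G : Type) [Group G], Prop} (hC : ClosedE C) (M : CoxeterMatrix B) (p : ℕ) :
    C (SA M p) ↔ C (Sh M (fun _ => 0)) := by
  rcases isEmpty_or_nonempty B with hB | hB
  · have h1 : Subsingleton (Sh M (fun _ => 0)) := by
      have h2 : (MonoidHom.id (Sh M (fun _ => 0))) = 1 := Sh.hom_ext fun i => isEmptyElim i
      exact ⟨fun x y => by
        have hx := DFunLike.congr_fun h2 x
        have hy := DFunLike.congr_fun h2 y
        exact hx.trans hy.symm⟩
    have h1' : Subsingleton (SA M p) := by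
      have h2 : (MonoidHom.id (SA M p)) = 1 := PresentedGroup.ext fun i => by
        rcases i with i | i
        · exact isEmptyElim i
        · exact isEmptyElim i
      exact ⟨fun x y => by
        have hx := DFunLike.congr_fun h2 x
        have hy := DFunLike.congr_fun h2 y
        exact hx.trans hy.symm⟩
    exact ⟨fun _ => mem_sub hC _, fun _ => mem_sub hC _⟩
  · have hS := satS (M := M) (p := p)
    have key := pres (A := Sh M (fun _ => 0)) (I := B) (cj := cjS M) (cm := cmS M)
      (K := Multiplicative (ZMod p)) (G := SA M p) (s := aS hS)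
      (t := fun i => zl p (PresentedGroup.of (Sum.inr i) : SA M p) (hS.pow i)) hC
      (Or.inl fun k l => mul_comm k l) ⟨?_, ?_⟩ ?_ ?_
    · rw [key]
      exact ⟨fun h => h.1, fun h => ⟨h, mem_zmod hC p⟩⟩
    · intro u k i h x
      have h1 := zext (f := (MulAut.conj (aS hS u)).toMonoidHom.comp
        (zl p (PresentedGroup.of (Sum.inr k) : SA M p) (hS.pow k)))
        (g := zl p (PresentedGroup.of (Sum.inr i) : SA M p) (hS.pow i)) (by
          show aS hS u * zl p _ _ _ * (aS hS u)⁻¹ = _
          rw [zl_one, zl_one, mul_inv_eq_iff_eq_mul]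
          rcases h with ⟨rfl, rfl⟩ | ⟨j, hij, rfl, rfl⟩
          · rw [aS_gen]
            exact hS.com k
          · rw [map_alt, aS_gen, aS_gen]
            exact hS.mix i j hij) x
      exact h1
    · rintro u i v j ⟨rfl, rfl, hij⟩ k l
      obtain ⟨n, rfl⟩ := zpow_ex k
      obtain ⟨m, rfl⟩ := zpow_ex l
      rw [map_one, one_mul, inv_one, mul_one, one_mul, mul_one, map_zpow, map_zpow, zl_one, zl_one]
      exact ((show Commute (PresentedGroup.of (Sum.inr i) : SA M p) (PresentedGroup.of (Sum.inr j))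
        from hS.sng i j hij).zpow_zpow n m).eq
    · intro X _ s' t' hs
      have h1 : SatS M p (fun i => s' (Sh.gen M _ i))
          (fun i => t' i (Multiplicative.ofAdd 1)) := by
        refine ⟨?_, ?_, ?_, ?_, ?_⟩
        · intro i j
          rw [← map_alt, ← map_alt, Sh.rel]
        · intro i
          rw [← map_pow, ← ofAdd_nsmul, nsmul_one, ZMod.natCast_self]
          exact map_one _
        · intro i
          have := hs.conj (Sh.gen M _ i) i i (Or.inl ⟨rfl, rfl⟩) (Multiplicative.ofAdd 1)
          rwa [mul_inv_eq_iff_eq_mul] at this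
        · intro i j hij
          have := hs.conj (alt (Sh.gen M _ j) (Sh.gen M _ i) (M i j - 1))
            (if Even (M i j) then i else j) i (Or.inr ⟨j, hij, rfl, rfl⟩) (Multiplicative.ofAdd 1)
          rw [mul_inv_eq_iff_eq_mul, map_alt] at this
          exact this
        · intro i j hij
          have := hs.comm 1 i 1 j ⟨rfl, rfl, hij⟩ (Multiplicative.ofAdd 1) (Multiplicative.ofAdd 1)
          simpa using this
      refine ⟨liftS h1, fun a => ?_, fun i k => ?_⟩
      · have h2 : (liftS h1).comp (aS hS) = s' := Sh.hom_ext fun i => by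
          rw [MonoidHom.comp_apply, aS_gen]
          simp [liftS]
        exact DFunLike.congr_fun h2 a
      · exact zext (f := (liftS h1).comp (zl p (PresentedGroup.of (Sum.inr i) : SA M p) (hS.pow i)))
          (g := t' i) (by
            rw [MonoidHom.comp_apply, zl_one]
            simp [liftS]) k
    · intro f hf1 hf2 x
      have h2 : f = MonoidHom.id _ := PresentedGroup.ext fun i => by
        rcases i with i | i
        · have := hf1 (Sh.gen M _ i)
          rw [aS_gen] at this
          exact this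
        · have := hf2 i (Multiplicative.ofAdd 1)
          rw [zl_one] at this
          exact this
      rw [h2]
      rfl

end sa

end Run7.h872.SG
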